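import Pool.Agent.MP_cce4c9_lc.H7.BaseA

/-! The group of divisor classes of degree zero is `l`-divisible. -/

set_option autoImplicit false

open WithZero Finsupp Module
open scoped IntermediateField

namespace Pool.Agent.MP_cce4c9_lc.H12

open Pool.Agent.MP_cce4c9_lc.H87 Pool.Agent.MP_cce4c9_lc.H7

section Dv

variable {k K : Type} [Field k] [IsAlgClosed k] [Field K] [Algebra k K]

theorem dva (hK : IsFF k K) (h : K) (v : Place k K) : dv k h v = v.ord h := dv_apply (fins hK h) v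

theorem dvmul (hK : IsFF k K) {a b : K} (ha : a ≠ 0) (hb : b ≠ 0) :
    dv k (a * b) = dv k a + dv k b := by
  ext v; simp [dva hK, v.ord_mul' ha hb]

theorem dvinv (hK : IsFF k K) (a : K) : dv k a⁻¹ = -dv k a := by
  ext v; simp [dva hK, v.ord_inv]

theorem dvpow (hK : IsFF k K) (a : K) (n : ℕ) : dv k (a ^ n) = (n : ℤ) • dv k a := by
  ext v; simp [dva hK, v.ord_pow]

theorem dvconst (hK : IsFF k K) (c : k) : dv k (algebraMap k K c) = 0 := by
  ext v; simp [dva hK]

theorem dvact (hK : IsFF k K) (θ : SA k K) (h : K) : dv k (θ.1 h) = actD θ (dv k h) := by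
  ext v
  rw [dva hK, actD_apply', dva hK]
  have := smul_ord_apply θ (θ⁻¹ • v) h
  rwa [smul_inv_smul] at this

theorem memLL (hK : IsFF k K) {D : Dv k K} {h : K} (h0 : h ≠ 0) : h ∈ LL D ↔ 0 ≤ dv k h + D := by
  rw [mem_LL, Finsupp.le_def]
  refine forall_congr' fun v => ?_
  rw [v.val_le_exp (v.val_ne h0), Finsupp.add_apply, dva hK, Finsupp.zero_apply]
  omega

theorem exists_eff (hK : IsFF k K) {g : ℕ} (hg : IsGenus k K g) {D : Dv k K}
    (hD : (g : ℤ) ≤ D.degree) : ∃ h : K, h ≠ 0 ∧ 0 ≤ dv k h + D := by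
  have h1 := hg.ge D
  have := hg.fin D
  have h2 : 0 < finrank k (LL D) := by omega
  obtain ⟨x, hx⟩ := (Module.finrank_pos_iff_exists_ne_zero (R := k) (M := LL D)).1 h2
  have h0 : (x : K) ≠ 0 := fun e => hx (Subtype.ext e)
  exact ⟨x, h0, (memLL hK h0).1 x.2⟩

/-- Divisors that are principal up to `l` times a divisor. -/
def Qd (hK : IsFF k K) (l : ℕ) : AddSubgroup (Dv k K) where
  carrier := {D | ∃ (E : Dv k K) (h : K), h ≠ 0 ∧ dv k h = D + (l : ℤ) • E}
  zero_mem' := ⟨0, 1, one_ne_zero, by simpa using dvconst hK 1⟩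
  add_mem' := by
    rintro a b ⟨E, h, h0, e⟩ ⟨E', h', h0', e'⟩
    exact ⟨E + E', h * h', mul_ne_zero h0 h0', by rw [dvmul hK h0 h0', e, e', smul_add]; abel⟩
  neg_mem' := by
    rintro a ⟨E, h, h0, e⟩
    exact ⟨-E, h⁻¹, inv_ne_zero h0, by rw [dvinv hK, e, smul_neg]; abel⟩

omit [IsAlgClosed k] in
theorem sum_single (D : Dv k K) (z : Place k K) (hD : D.degree = 0) :
    D = ∑ v ∈ D.support, D v • (single v (1 : ℤ) - single z 1) := by
  simp only [smul_sub, Finset.sum_sub_distrib]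
  rw [← Finset.sum_smul, ← Finsupp.degree_apply, hD, zero_smul, sub_zero]
  simp only [smul_single_one]
  exact (Finsupp.sum_single D).symm

omit [IsAlgClosed k] in
theorem card_le_degree {D : Dv k K} (hD : 0 ≤ D) : (D.support.card : ℤ) ≤ D.degree := by
  rw [Finsupp.degree_apply, Finset.card_eq_sum_ones, Nat.cast_sum]
  refine Finset.sum_le_sum fun v hv => ?_
  have h1 := Finsupp.mem_support_iff.1 hv
  have h2 : 0 ≤ D v := hD v
  simp only [Nat.cast_one]; omega

omit [IsAlgClosed k] in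
theorem eq_sum_of_card {D : Dv k K} (hD : 0 ≤ D) (h : D.degree ≤ D.support.card) :
    D = ∑ v ∈ D.support, single v (1 : ℤ) := by
  have h1 : ∀ v ∈ D.support, (1 : ℤ) ≤ D v := fun v hv => by
    have h1 := Finsupp.mem_support_iff.1 hv
    have h2 : 0 ≤ D v := hD v
    omega
  have h2 : ∑ v ∈ D.support, (1 : ℤ) = ∑ v ∈ D.support, D v :=
    le_antisymm (Finset.sum_le_sum h1) (by rw [← Finsupp.degree_apply]; simpa using h)
  have h3 := (Finset.sum_eq_sum_iff_of_le h1).1 h2
  conv_lhs => rw [← Finsupp.sum_single D, Finsupp.sum]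
  exact Finset.sum_congr rfl fun v hv => by rw [← h3 v hv]

end Dv

section Ind

variable {k Ω : Type} [Field k] [Field Ω] [Algebra k Ω]

theorem indep_of_alg {ι κ : Type} [Fintype ι] [Fintype κ] {x : ι → Ω} {y : κ → Ω}
    (hx : AlgebraicIndependent k x) (hc : Fintype.card κ ≤ Fintype.card ι)
    (ha : ∀ i, IsAlgebraic (Algebra.adjoin k (Set.range y)) (x i)) :
    AlgebraicIndependent k y ∧ Fintype.card ι ≤ Fintype.card κ := by
  classical
  let M := AlgebraicIndependent.matroid k Ω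
  have h1 : M.Indep (Set.range x) :=
    AlgebraicIndependent.matroid_indep_iff.2 hx.to_subtype_range
  have h2 : Set.range x ⊆ M.closure (Set.range y) := by
    rintro _ ⟨i, rfl⟩
    rw [AlgebraicIndependent.matroid_closure_eq]
    exact ha i
  have h3 := hx.injective.encard_range.trans (h1.encard_le_eRk_of_subset h2)
  rw [M.eRk_closure_eq] at h3
  have h4 : (Set.range y).encard ≤ ENat.card κ := by
    rw [← Set.image_univ, ← Set.encard_univ]; exact Set.encard_image_le _ _
  have h5 := M.eRk_le_encard (Set.range y)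
  have hc' : ENat.card κ ≤ ENat.card ι := by simpa using hc
  have h6 : M.Indep (Set.range y) :=
    (Matroid.indep_iff_eRk_eq_encard_of_finite (Set.finite_range y)).2
      (le_antisymm h5 (h4.trans (hc'.trans h3)))
  have h7 : (Set.range y).encard = ENat.card κ := le_antisymm h4 (hc'.trans (h3.trans h5))
  have h8 : Function.Injective y := by
    rw [← Set.injOn_univ]
    refine Set.Finite.injOn_of_encard_image_eq Set.finite_univ ?_
    rw [Set.image_univ, h7, Set.encard_univ]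
  refine ⟨AlgebraicIndependent.of_subtype_range h8
    (AlgebraicIndependent.matroid_indep_iff.1 h6), ?_⟩
  simpa using h3.trans (h5.trans h4)

theorem exists_emb {K : Type} [Field K] [Algebra k K] [IsAlgClosed Ω] {t : K}
    (ht : Transcendental k t) [FiniteDimensional k⟮t⟯ K] {T : Ω} (hT : Transcendental k T) :
    ∃ η : K →ₐ[k] Ω, η t = T := by
  let φ : k⟮t⟯ →ₐ[k] Ω := (k⟮T⟯.val.comp (RatFunc.algEquivOfTranscendental T hT).toAlgHom).comp
    (RatFunc.algEquivOfTranscendental t ht).symm.toAlgHom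
  obtain ⟨η, hη⟩ := IsAlgClosed.surjective_domRestrict_of_isAlgebraic (K := k) (L := k⟮t⟯)
    (M := Ω) (E := K) φ
  refine ⟨η, ?_⟩
  have h1 : η t = φ (IntermediateField.AdjoinSimple.gen k t) := by rw [← hη]; rfl
  rw [h1]
  show ((RatFunc.algEquivOfTranscendental T hT)
    ((RatFunc.algEquivOfTranscendental t ht).symm (IntermediateField.AdjoinSimple.gen k t)) : Ω) = T
  rw [RatFunc.algEquivOfTranscendental_symm_gen, RatFunc.algEquivOfTranscendental_X]

/-- The image of an embedding is algebraic over any field that contains the image of `t`. -/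
theorem alg_emb {K : Type} [Field K] [Algebra k K] {t : K} [FiniteDimensional k⟮t⟯ K]
    (η : K →ₐ[k] Ω) (N : IntermediateField k Ω) (ht : η t ∈ N) (h : K) : IsAlgebraic N (η h) := by
  have h1 : ∀ c : k⟮t⟯, η c ∈ N := fun c => by
    have : k⟮t⟯ ≤ N.comap η := by
      rw [IntermediateField.adjoin_simple_le_iff]; exact ht
    exact this c.2
  let φ : k⟮t⟯ →+* N := (η.toRingHom.comp (algebraMap k⟮t⟯ K)).codRestrict N h1
  have h2 : IsAlgebraic k⟮t⟯ h := Algebra.IsAlgebraic.isAlgebraic h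
  exact h2.ringHom_of_comp_eq φ η.toRingHom φ.injective (by ext c; rfl)

end Ind

section BC

variable {k K Ω : Type} [Field k] [IsAlgClosed k] [Field K] [Algebra k K] [Field Ω] [Algebra k Ω]
  (B : BCK k K Ω)

omit [IsAlgClosed k] in
theorem cst (c : k) :
    algebraMap K B.F (algebraMap k K c) = algebraMap Ω B.F (algebraMap k Ω c) := by
  rw [← IsScalarTower.algebraMap_apply, ← IsScalarTower.algebraMap_apply]

omit [IsAlgClosed k] in
theorem plev (η : K →ₐ[k] Ω) (h : K) : (B.pl η).ev (algebraMap K B.F h) = η h :=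
  (B.pl η).ev_eq (B.pl_val η h)

theorem iolt (hK : IsFF k K) (z : Place k K) {h : K} (hz : z.val h ≤ 1) :
    (B.io z).val (algebraMap K B.F h - algebraMap Ω B.F (algebraMap k Ω (z.ev h))) < 1 := by
  rw [← cst, ← map_sub, B.io_val]
  exact (res hK z).ev_spec hz

theorem ioev (hK : IsFF k K) (z : Place k K) (h : K) :
    (B.io z).ev (algebraMap K B.F h) ∈ Set.range (algebraMap k Ω) := by
  by_cases hz : z.val h ≤ 1
  · exact ⟨z.ev h, ((B.io z).ev_eq (iolt B hK z hz)).symm⟩
  · refine ⟨0, ?_⟩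
    rw [Place.ev, dif_neg, map_zero]
    rintro ⟨c, hc⟩
    exact hz (B.io_val z h ▸ (B.io z).le_of_sub_lt hc)

omit [IsAlgClosed k] in
theorem actpl (τ : Ω ≃ₐ[k] Ω) (η : K →ₐ[k] Ω) :
    B.act τ • B.pl η = B.pl (τ.toAlgHom.comp η) := by
  refine (B.uniq _ _ fun h a ha => ?_).symm
  rw [(B.pl _).const_eq ha (B.pl_val _ h)]
  have := smul_val_apply (B.act τ) (B.pl η) (algebraMap K B.F h - algebraMap Ω B.F (η h))
  rw [map_sub, B.act_K, B.act_Ω] at this
  exact this.trans_lt (B.pl_val η h)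

theorem actio (hK : IsFF k K) (τ : Ω ≃ₐ[k] Ω) (z : Place k K) : B.act τ • B.io z = B.io z := by
  refine (B.uniq _ _ fun h a ha => ?_).symm
  have hz : z.val h ≤ 1 := B.io_val z h ▸ (B.io z).le_of_sub_lt ha
  rw [(B.io z).const_eq ha (iolt B hK z hz)]
  have := smul_val_apply (B.act τ) (B.io z)
    (algebraMap K B.F h - algebraMap Ω B.F (algebraMap k Ω (z.ev h)))
  rw [map_sub, B.act_K, B.act_Ω, τ.commutes] at this
  exact this.trans_lt (iolt B hK z hz)

theorem actD_io (hK : IsFF k K) (τ : Ω ≃ₐ[k] Ω) (v : Dv k K) :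
    actD (B.act τ) (v.mapDomain B.io) = v.mapDomain B.io := by
  rw [actD, ← Finsupp.mapDomain_comp]
  exact Finsupp.mapDomain_congr fun z _ => actio B hK τ z

variable {B} {P : KP k Ω} (R : Red B.toBCD P)

theorem rpio (hK : IsFF k K) (z : Place k K) : R.rp (B.io z) = z := by
  refine (Place.eq_of_le _ _ fun h hz => (R.rp_iff _ h).2 ⟨?_, ?_⟩).symm
  · exact (B.io_val z h).trans_le hz
  · exact (B.io z).ev_eq (iolt B hK z hz) ▸ P.mem _

omit [IsAlgClosed k] in
theorem rppl (η : K →ₐ[k] Ω) (z : Place k K) (H : ∀ h, z.val h ≤ 1 → η h ∈ P.O) :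
    R.rp (B.pl η) = z := by
  refine (Place.eq_of_le _ _ fun h hz => (R.rp_iff _ h).2 ⟨?_, ?_⟩).symm
  · exact (B.pl η).le_of_sub_lt (B.pl_val η h)
  · exact (plev B η h).symm ▸ H h hz

omit [IsAlgClosed k] in
theorem red_pr [IsAlgClosed Ω] {Φ : B.F} (h0 : Φ ≠ 0) :
    ∃ h : K, h ≠ 0 ∧ dv k h = (dv Ω Φ).mapDomain R.rp := by
  obtain ⟨a, ha⟩ := R.norm Φ h0
  have hm : algebraMap Ω B.F a * Φ ∈ R.G := (R.G.valuation_le_one_iff _).1 ha.le
  have ha0 : algebraMap Ω B.F a ≠ 0 := fun e => by simp [e] at ha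
  have hr : R.red ⟨_, hm⟩ ≠ 0 := fun e => absurd ((R.ker _).1 e) (by rw [ha]; exact lt_irrefl _)
  refine ⟨_, hr, (R.rt _ hr).trans ?_⟩
  show (dv Ω (algebraMap Ω B.F a * Φ)).mapDomain R.rp = _
  rw [dvmul B.ff ha0 h0, dvconst B.ff, zero_add]

variable (B)

/-- If `τ` fixes the class of `l D`, then `τ ^ l` fixes the class of `D`. -/
theorem fix_pow [IsAlgClosed Ω] (hRIG : StmtRIG) (hK : IsFF k K) {l : ℕ} (hl : (l : k) ≠ 0)
    (τ : Ω ≃ₐ[k] Ω) {Φ : B.F} (h0 : Φ ≠ 0) {D : Dv Ω B.F} (hD : 0 ≤ D)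
    (hc : ∀ h ∈ LL D, h ∈ Set.range (algebraMap Ω B.F))
    (hfix : actD (B.act τ) (dv Ω Φ + (l : ℤ) • D) = dv Ω Φ + (l : ℤ) • D) :
    actD (B.act (τ ^ l)) D = D := by
  have hF := B.ff
  have hl0 : (l : ℤ) ≠ 0 := fun e => hl (by rw [Nat.cast_eq_zero.1 e, Nat.cast_zero])
  have hne : ∀ {x : B.F}, x ≠ 0 → (B.act τ).1 x ≠ 0 := fun hx => by simpa using hx
  have e1 : dv Ω (Φ * ((B.act τ).1 Φ)⁻¹) = (l : ℤ) • (actD (B.act τ) D - D) := by
    rw [actD_add, actD_zsmul] at hfix
    rw [dvmul hF h0 (inv_ne_zero (hne h0)), dvinv hF, dvact hF, smul_sub,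
      eq_sub_of_add_eq hfix]
    abel
  obtain ⟨f, Ψ, hf, hΨ, hd, e2⟩ := hRIG k K Ω B l hK hl (Φ * ((B.act τ).1 Φ)⁻¹)
    (mul_ne_zero h0 (inv_ne_zero (hne h0))) fun w => by
      rw [← dva hF, e1]; exact Dvd.intro _ rfl
  have hf' : algebraMap K B.F f ≠ 0 := by simpa using hf
  let v : Dv k K := (dv k f).mapRange (· / l) (by simp)
  have e3 : dv k f = (l : ℤ) • v := by
    ext z
    simp only [v, Finsupp.smul_apply, mapRange_apply, smul_eq_mul, dva hK]
    exact (Int.mul_ediv_cancel' (hd z)).symm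
  have e4 : dv Ω (algebraMap K B.F f) = (l : ℤ) • v.mapDomain B.io := by
    rw [B.io_dv, e3, Finsupp.mapDomain_smul]
  have e5 : actD (B.act τ) D = D + v.mapDomain B.io + dv Ω Ψ := by
    rw [e2, dvmul hF hf' (pow_ne_zero _ hΨ), dvpow hF, e4, ← smul_add] at e1
    have := smul_right_injective _ hl0 e1
    rw [add_assoc, this]; abel
  have key : ∀ n : ℕ, ∃ χ : B.F, χ ≠ 0 ∧
      actD (B.act (τ ^ n)) D = D + (n : ℤ) • v.mapDomain B.io + dv Ω χ := fun n => by
    induction n with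
    | zero => exact ⟨1, one_ne_zero, by simpa using dvconst hF 1⟩
    | succ n ih =>
      obtain ⟨χ, hχ, e⟩ := ih
      refine ⟨Ψ * (B.act τ).1 χ, mul_ne_zero hΨ (hne hχ), ?_⟩
      rw [pow_succ', map_mul, actD_mul, e, actD_add, actD_add, actD_zsmul, actD_io B hK, e5,
        dvmul hF hΨ (hne hχ), dvact hF, Nat.cast_succ, add_smul, one_smul]
      abel
  obtain ⟨χ, hχ, e⟩ := key l
  rw [← e4, add_assoc, ← dvmul hF hf' hχ] at e
  obtain ⟨c, hc'⟩ := hc _ ((memLL hF (mul_ne_zero hf' hχ)).2 (by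
    rw [add_comm, ← e]; exact fun w => by rw [actD_apply']; exact hD _))
  rw [e, ← hc', dvconst hF, add_zero]

/-- A generic effective divisor of degree `g` is divisible by `l` up to the base point. -/
theorem generic [IsAlgClosed Ω] (hDEG : StmtDEG) (hRIG : StmtRIG) (hSPEC : StmtSPEC)
    (hK : IsFF k K) {l : ℕ} (hl : (l : k) ≠ 0) {g : ℕ} (hg : IsGenus Ω B.F g) {t : K}
    [FiniteDimensional k⟮t⟯ K] (η : ℕ → K →ₐ[k] Ω) (hη : AlgebraicIndependent k fun i => η i t)
    (z₀ : Place k K) :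
    ∃ (η' : Fin g → K →ₐ[k] Ω) (Φ : B.F) (E : Dv Ω B.F),
      AlgebraicIndependent k (fun j => η' j t) ∧ Φ ≠ 0 ∧
        dv Ω Φ = ∑ j, single (B.pl (η' j)) 1 - (g : ℤ) • single (B.io z₀) 1 + (l : ℤ) • E := by
  classical
  have hF := B.ff
  have hl0 : l ≠ 0 := fun e => hl (by rw [e, Nat.cast_zero])
  have hinj : Function.Injective fun i => B.pl (η i) := fun i j e => hη.injective (by
    have e' : B.pl (η i) = B.pl (η j) := e
    show η i t = η j t
    rw [← plev B (η i), e', plev])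
  obtain ⟨S, hS, hcard, hc⟩ := hg.red _ (Set.infinite_range_of_injective hinj)
  set D : Dv Ω B.F := ∑ v ∈ S, single v (1 : ℤ) with hD
  have hDa : ∀ w, D w = if w ∈ S then 1 else 0 := fun w => by
    simp [hD, Finsupp.finsetSum_apply, single_apply]
  have hD0 : 0 ≤ D := fun w => by rw [hDa]; split_ifs <;> simp
  have hDd : D.degree = g := by simp [hD, hcard]
  set D₀ : Dv Ω B.F := (g : ℤ) • single (B.io z₀) 1 with hD₀
  have hD₀d : D₀.degree = g := by simp [hD₀]
  obtain ⟨Φ, h0, hΦ⟩ := exists_eff hF hg (D := (l : ℤ) • (D - D₀) + D₀)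
    (by simp [hDd, hD₀d])
  set D' : Dv Ω B.F := dv Ω Φ + ((l : ℤ) • (D - D₀) + D₀) with hD'
  have hD'd : D'.degree = g := by simp [hD', hDd, hD₀d, (hDEG Ω B.F hF).2 Φ]
  let y : D'.support → Ω := fun w => w.1.ev (algebraMap K B.F t)
  choose ι hι using fun w : S => hS w.2
  have hιi : Function.Injective ι := fun a b e => Subtype.ext (by rw [← hι a, ← hι b, e])
  have halg : ∀ w : S, IsAlgebraic (Algebra.adjoin k (Set.range y)) (η (ι w) t) := fun w => by
    rw [← IntermediateField.isAlgebraic_adjoin_iff]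
    by_contra htr
    obtain ⟨a, ha0, ha⟩ : ∃ a : k, a ≠ 0 ∧ a ^ l ≠ 1 := by
      obtain ⟨a, ha⟩ := Infinite.exists_notMem_finset
        (insert (0 : k) (Polynomial.nthRoots l (1 : k)).toFinset)
      simp only [Finset.mem_insert, Multiset.mem_toFinset,
        Polynomial.mem_nthRoots (Nat.pos_of_ne_zero hl0), not_or] at ha
      exact ⟨a, ha.1, ha.2⟩
    obtain ⟨τ, hτ1, hτ2⟩ := (hSPEC k K Ω hK).2 _ _ a htr ha0
    have f1 : actD (B.act τ) D' = D' := by
      conv_rhs => rw [← Finsupp.mapDomain_id (v := D')]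
      refine Finsupp.mapDomain_congr fun v hv => ?_
      rcases B.pl_surj v with ⟨z, rfl⟩ | ⟨θ, rfl⟩
      · exact actio B hK τ z
      · rw [actpl]
        refine congrArg B.pl (AlgHom.ext fun h => hτ1 _ (alg_emb (t := t) θ _ ?_ h))
        exact IntermediateField.subset_adjoin _ _ ⟨⟨_, hv⟩, plev B θ t⟩
    have f2 : actD (B.act τ) D₀ = D₀ := by rw [hD₀, actD_zsmul, actD_single, actio B hK]
    have f3 : dv Ω Φ + (l : ℤ) • D = D' + (l : ℤ) • D₀ - D₀ := by rw [hD', smul_sub]; abel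
    have f4 := fix_pow B hRIG hK hl τ h0 hD0 hc
      (by rw [f3, actD_sub, actD_add, actD_zsmul, f1, f2])
    have f5 : B.act (τ ^ l) • w.1 ∈ S := by
      have := actD_apply (B.act (τ ^ l)) D w.1
      rw [f4, hDa, hDa, if_pos w.2] at this
      by_contra hn
      rw [if_neg hn] at this
      exact zero_ne_one this
    have f6 : ∀ n : ℕ, (τ ^ n) (η (ι w) t) = a ^ n • η (ι w) t := fun n => by
      induction n with
      | zero => simp
      | succ n ih =>
        rw [pow_succ', AlgEquiv.mul_apply, ih, map_smul, hτ2, ← Algebra.smul_def, smul_smul,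
          pow_succ]
    have f7 : a ^ l • η (ι w) t = η (ι ⟨_, f5⟩) t := by
      have e := hι ⟨_, f5⟩
      have e0 := hι w
      simp only at e e0
      rw [← plev B (η (ι ⟨_, f5⟩)), e, ← e0, actpl, plev, ← f6]; rfl
    have hli := hη.linearIndependent
    by_cases e : ι w = ι ⟨_, f5⟩
    · rw [← e] at f7
      refine ha (smul_left_injective k (hli.ne_zero (ι w)) ?_)
      simpa using f7
    · exact hli.notMem_span_image (s := {ι w}) (x := ι ⟨_, f5⟩) (by simpa using Ne.symm e)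
        (f7 ▸ Submodule.smul_mem _ _ (Submodule.subset_span ⟨ι w, rfl, rfl⟩))
  have c1 := card_le_degree hΦ
  obtain ⟨hy, c2⟩ := indep_of_alg (hη.comp ι hιi) (y := y) (by
    simp only [Fintype.card_coe]; omega) halg
  simp only [Fintype.card_coe] at c2
  have c3 : D'.support.card = g := by omega
  have hpl : ∀ w : D'.support, ∃ θ, B.pl θ = w.1 := fun w => by
    rcases B.pl_surj w.1 with ⟨z, hz⟩ | h
    · refine absurd (ioev B hK z t) ?_
      rw [hz]
      exact nonconst_of_transc (hy.transcendental w)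
    · exact h
  choose θ hθ using hpl
  let e : Fin g ≃ D'.support := (D'.support.equivFinOfCardEq c3).symm
  refine ⟨fun j => θ (e j), Φ, D₀ - D, ?_, h0, ?_⟩
  · have : (fun j => θ (e j) t) = y ∘ e := funext fun j => by
      rw [← plev B, hθ]; rfl
    rw [this]
    exact hy.comp e e.injective
  · have e1 : ∑ j, single (B.pl (θ (e j))) (1 : ℤ) = D' := by
      refine Eq.trans ?_ (eq_sum_of_card hΦ (by omega)).symm
      rw [← Finset.sum_coe_sort D'.support, ← e.sum_comp]
      exact Finset.sum_congr rfl fun j _ => by rw [hθ]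
    rw [e1, hD', smul_sub, smul_sub]; abel

end BC

theorem exists_big (k : Type) [Field k] : ∃ (Ω : Type) (_ : Field Ω) (_ : Algebra k Ω)
    (_ : IsAlgClosed Ω) (T : ℕ → Ω), AlgebraicIndependent k T := by
  let L := FractionRing (MvPolynomial ℕ k)
  have h1 : AlgebraicIndependent k fun i : ℕ =>
      algebraMap (MvPolynomial ℕ k) L (MvPolynomial.X i) :=
    (MvPolynomial.algebraicIndependent_X ℕ k).map'
      (f := IsScalarTower.toAlgHom k (MvPolynomial ℕ k) L) (IsFractionRing.injective _ L)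
  exact ⟨AlgebraicClosure L, inferInstance, inferInstance, inferInstance, _,
    h1.map' (f := IsScalarTower.toAlgHom k L (AlgebraicClosure L))
      (algebraMap L (AlgebraicClosure L)).injective⟩

theorem div (hLL : StmtLL) (hDEG : StmtDEG) (hGEN : StmtGEN) (_hCHEV : StmtCHEV) (hBCK : StmtBCK)
    (hRED : StmtRED) (hRIG : StmtRIG) (hSPEC : StmtSPEC) : StmtDIV := by
  intro k K _ _ _ _ l hK hl D hD
  classical
  obtain ⟨t, ht, hfd⟩ := id hK
  obtain ⟨Ω, _, _, _, T, hT⟩ := exists_big k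
  choose η hη using fun i => exists_emb ht (hT.transcendental i)
  obtain ⟨B⟩ := hBCK k K Ω hK
  obtain ⟨⟨g, hg⟩, -⟩ := hGEN Ω B.F B.ff
  have := (hLL k K hK).2.2.2
  obtain ⟨z₀⟩ : Nonempty (Place k K) := inferInstance
  have hT' : AlgebraicIndependent k fun i => η i t := by rwa [funext hη]
  obtain ⟨η', Φ, E, hi, h0, hΦ⟩ := generic B hDEG hRIG hSPEC hK hl hg η hT' z₀
  have key : ∀ z : Place k K, single z (1 : ℤ) - single z₀ 1 ∈ Qd hK l := fun z => by
    obtain ⟨P, hP⟩ := (hSPEC k K Ω hK).1 t g η' (fun j => if j.1 = 0 then z else z₀) hi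
    obtain ⟨R⟩ := hRED k K Ω B.toBCD P hK
    let m := Finsupp.mapDomain.addMonoidHom (M := ℤ) R.rp
    have hm : ∀ w, m (single w 1) = single (R.rp w) 1 := fun w => Finsupp.mapDomain_single
    cases g with
    | zero =>
      obtain ⟨Ψ, hΨ0, hΨ⟩ := exists_eff B.ff hg
        (D := single (B.io z₀) 1 - single (B.io z) 1) (by simp)
      have c1 := card_le_degree hΨ
      have c2 : dv Ω Ψ + (single (B.io z₀) 1 - single (B.io z) 1) = 0 := by
        rw [← Finsupp.support_eq_empty, ← Finset.card_eq_zero]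
        simp only [map_add, map_sub, degree_single, (hDEG Ω B.F B.ff).2 Ψ] at c1
        omega
      obtain ⟨h, hh, e⟩ := red_pr R hΨ0
      refine ⟨0, h, hh, e.trans ?_⟩
      show m _ = _
      rw [eq_neg_of_add_eq_zero_left c2, neg_sub, map_sub, hm, hm, rpio R hK, rpio R hK,
        smul_zero, add_zero]
    | succ g =>
      obtain ⟨h, hh, e⟩ := red_pr R h0
      refine ⟨m E, h, hh, e.trans ?_⟩
      show m _ = _
      have hr : ∀ j, R.rp (B.pl (η' j)) = if j.1 = 0 then z else z₀ :=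
        fun j => rppl R _ _ fun h hz => (hP j h hz).1
      rw [hΦ, map_add, map_sub, map_sum, map_zsmul, map_zsmul, hm, rpio R hK]
      simp only [hm, hr, Fin.sum_univ_succ, Fin.val_zero, Fin.val_succ, Nat.succ_ne_zero, if_true,
        if_false, Finset.sum_const, Finset.card_univ, Fintype.card_fin, Nat.cast_succ, add_smul,
        one_smul, natCast_zsmul]
      abel
  have : D ∈ Qd hK l := by
    rw [sum_single D z₀ hD]
    exact sum_mem fun v _ => zsmul_mem (key v) _
  exact this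

end Pool.Agent.MP_cce4c9_lc.H12
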