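import Pool.Agent.MP_cce4c9_lc.H87.SpecQ
import Pool.Agent.MP_cce4c9_lc.H7.BaseA

/-! Jets at the bad and the infinite places are attained in degree `N0`. -/

set_option autoImplicit false

open WithZero Polynomial Module
open scoped IntermediateField

namespace Pool.Agent.MP_cce4c9_lc.H12

open Pool.Agent.MP_cce4c9_lc.H87 Pool.Agent.MP_cce4c9_lc.H7 Pool.Agent.MP_cce4c9_lc.H87.Cv

variable {k : Type} [Field k] {d m : ℕ} {f : k[X]} {C : Cv k d m f}

theorem ds_le (hd : 0 < d) (J : ℕ) : ds d m J ≤ w0 d m := by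
  rw [ds_eq, w0]
  refine (Finset.sum_le_card_nsmul _ _ (d - 1) fun i _ => ?_).trans (by simp)
  exact Nat.le_sub_one_of_lt (Nat.mod_lt _ hd)

/-- The divisor of the different, in both charts. -/
noncomputable def EQ (C : Cv k d m f) : Dv k C.Q := dv k C.dl + (w0 d m : ℤ) • C.Dinf

theorem unit_ne (v : Place k C.Q) {y : C.Q} (h : IsUnit y) : v.val y ≠ 0 := by
  obtain ⟨u, rfl⟩ := h
  exact v.val_unit_ne u

theorem EQ_fin (hQ : C.QA) (hH : C.HA) {v : Place k C.Q} (hv : v.val C.t ≤ 1) :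
    v.val C.dl = exp (-EQ C v) := by
  rw [EQ, Finsupp.add_apply, Finsupp.smul_apply, hH.Dinf_apply, if_neg hv.not_gt, smul_zero,
    add_zero, dv_apply (hQ.fins _), v.val_eq (unit_ne v hH.dlU)]

theorem EQ_inf (hQ : C.QA) (hH : C.HA) {v : Place k C.Q} (hv : 1 < v.val C.t) :
    v.val C.dlh = exp (-EQ C v) := by
  have hs : IsUnit C.s := C.su.isUnit
  rw [EQ, Finsupp.add_apply, Finsupp.smul_apply, hH.Dinf_apply, if_pos hv, dv_apply (hQ.fins _),
    v.val_eq (unit_ne v (show IsUnit C.dlh from (hs.pow _).mul hH.dlU)), dlh,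
    v.ord_mul (unit_ne v (hs.pow _)) (unit_ne v hH.dlU), v.ord_pow, smul_eq_mul, add_comm]

theorem EQ_pos (hQ : C.QA) (hH : C.HA) {v : Place k C.Q} (hv : C.Bad v ∨ 1 < v.val C.t) :
    0 < EQ C v := by
  have : (exp (-EQ C v) : ℤᵐ⁰) < 1 := by
    rcases hv with hv | hv
    · rw [← EQ_fin hQ hH hv.1]; exact hv.2
    · rw [← EQ_inf hQ hH hv]; exact (hH.infI v hv).2.2.1
  rw [← exp_zero, exp_lt_exp] at this
  omega

theorem EQ_cases (hQ : C.QA) (hH : C.HA) (v : Place k C.Q) :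
    EQ C v = 0 ∨ C.Bad v ∨ 1 < v.val C.t := by
  rcases le_or_gt (v.val C.t) 1 with hv | hv
  · rcases (hH.finA v hv _ hH.dlA).eq_or_lt with h | h
    · rw [EQ_fin hQ hH hv, ← exp_zero, exp_inj] at h
      exact Or.inl (by omega)
    · exact Or.inr (Or.inl ⟨hv, h⟩)
  · exact Or.inr (Or.inr hv)

theorem mono_LL (hH : C.HA) {J : ℕ} (hJ : J < d ^ m) :
    ∏ i ∈ Finset.range m, C.x i ^ dig d J i ∈ LL ((w0 d m : ℤ) • C.Dinf) := by
  intro v
  have hs : IsUnit C.s := C.su.isUnit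
  rw [Finsupp.smul_apply, hH.Dinf_apply]
  split_ifs with hv
  · have h1 := ds_le (m := m) (lt_of_lt_of_le two_pos C.hd) J
    have h2 : C.mono (w0 d m - ds d m J) J ∈ C.AI := (hH.memI _).2
      ⟨w0 d m, Submodule.subset_span ⟨_, J, hJ, by omega, rfl⟩⟩
    have h3 : C.mono (w0 d m - ds d m J) J =
        C.s ^ w0 d m * ∏ i ∈ Finset.range m, C.x i ^ dig d J i := by
      simp only [mono, Y, mul_pow, Finset.prod_mul_distrib, Finset.prod_pow_eq_pow_sum, ← ds_eq]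
      rw [mul_left_comm, ← pow_add, Nat.sub_add_cancel h1, mul_comm]
    have h4 := (hH.infI v hv).2.2.2.1 _ h2
    rw [h3, map_mul, v.val_eq (unit_ne v (hs.pow _)), v.ord_pow, exp_neg,
      inv_mul_le_one₀ (zero_lt_iff.2 exp_ne_zero)] at h4
    exact h4
  · rw [smul_zero, exp_zero]
    refine hH.finA v (not_lt.1 hv) _ (prod_mem fun i hi => pow_mem ?_ _)
    exact Algebra.subset_adjoin ⟨i, Finset.mem_range.1 hi, rfl⟩

/-- Pull-back of divisors to a component. -/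
noncomputable def pb (P : C.Cmp) (i : P.I) : Dv k C.Q →+ Dv k (P.K i) :=
  Finsupp.comapDomain.addMonoidHom (f := fun w => P.up ⟨i, w⟩)
    (P.up.injective.comp sigma_mk_injective)

theorem pb_ap (P : C.Cmp) (i : P.I) (D : Dv k C.Q) (w : Place k (P.K i)) :
    pb P i D w = D (P.up ⟨i, w⟩) := rfl

variable [IsAlgClosed k]

theorem pb_dv (hQ : C.QA) (P : C.Cmp) (i : P.I) (y : C.Q) :
    pb P i (dv k y) = dv k (P.φ i y) := by
  ext w
  rw [pb_ap, dv_apply (hQ.fins _), dv_apply (fins (P.ff i) _), Place.ord, P.up_val, Place.ord]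

theorem pb_deg (hDEG : StmtDEG) (hQ : C.QA) (P : C.Cmp) (i : P.I) :
    (pb P i C.Dinf).degree = (finrank k⟮P.φ i C.s⟯ (P.K i) : ℤ) := by
  rw [← (hDEG k _ (P.ff i)).1 _ (P.rks i).1, ← pb_dv hQ]
  congr 1
  ext w
  simp only [pb_ap, Dinf, Finsupp.sup_apply, Finsupp.zero_apply]

theorem genus_le (hDEG : StmtDEG) (hRI : StmtRI) (hQ : C.QA) (hH : C.HA) (P : C.Cmp) (i : P.I)
    {g : ℕ} (hg : IsGenus k (P.K i) g) : (g : ℤ) + finrank k⟮P.φ i C.s⟯ (P.K i) ≤
      w0 d m * finrank k⟮P.φ i C.s⟯ (P.K i) + 1 := by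
  classical
  let D := pb P i ((w0 d m : ℤ) • C.Dinf)
  have h1 : Submodule.span (RatFunc k) (LL D : Set (P.K i)) = ⊤ := by
    rw [eq_top_iff]
    rintro y -
    obtain ⟨Y, hY⟩ := P.bij.surjective (Pi.single i y)
    have hy : P.φ i Y = y := by simpa using congrFun hY i
    obtain ⟨a, rfl⟩ := C.spn Y
    rw [← hy, map_sum]
    refine sum_mem fun J hJ => ?_
    rw [← Algebra.smul_def, map_smul]
    refine Submodule.smul_mem _ _ (Submodule.subset_span fun w => ?_)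
    rw [← P.up_val]
    exact mono_LL hH (Finset.mem_range.1 hJ) _
  obtain ⟨u, hu, -, hli⟩ :=
    Submodule.exists_fun_fin_finrank_span_eq (RatFunc k) (LL D : Set (P.K i))
  have h2 : finrank k⟮P.φ i C.s⟯ (P.K i) =
      finrank (RatFunc k) (Submodule.span (RatFunc k) (LL D : Set (P.K i))) := by
    rw [h1, finrank_top, (P.rks i).2.1]
  have h3 := (hRI k _ (P.ff i)).2 g hg _ (P.rks i).1 D (u ∘ Fin.cast h2)
    ((P.rks i).2.2 _ _ (hli.comp _ (Fin.cast_injective h2))) fun j => hu _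
  simpa only [D, map_zsmul, pb_deg hDEG hQ, smul_eq_mul] using h3

theorem je (hDEG : StmtDEG) (hRI : StmtRI) (hGEN : StmtGEN) : StmtJE := by
  intro k _ _ d m f C P hQ hH D u n hn hD a ha
  have key : ∀ i : P.I, ∃ y ∈ LL (pb P i D), ∀ w, EQ C (P.up ⟨i, w⟩) ≠ 0 →
      w.val (y - P.φ i (a (P.up ⟨i, w⟩))) ≤ exp (D (P.up ⟨i, w⟩) - EQ C (P.up ⟨i, w⟩)) := by
    intro i
    have hK := P.ff i
    obtain ⟨⟨g, hg⟩, hJ⟩ := hGEN k _ hK
    have h0 : ∀ v, 0 ≤ EQ C v := fun v =>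
      (EQ_cases hQ hH v).elim (fun e => e.ge) fun e => (EQ_pos hQ hH e).le
    have h1 := genus_le hDEG hRI hQ hH P i hg
    have h2 : 0 < finrank k⟮P.φ i C.s⟯ (P.K i) := by rw [(P.rks i).2.1]; exact finrank_pos
    have h3 : (pb P i D).degree = N0 d m * finrank k⟮P.φ i C.s⟯ (P.K i) := by
      have := congrArg (fun D => (pb P i D).degree) hD
      simp only [map_add, map_zsmul, pb_dv hQ, pb_deg hDEG hQ, (hDEG k _ hK).2, smul_eq_mul,
        zero_add, Nat.cast_mul, mul_assoc] at this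
      exact mul_left_cancel₀ (by exact_mod_cast hn.ne') this
    have h4 : (pb P i (EQ C)).degree = w0 d m * finrank k⟮P.φ i C.s⟯ (P.K i) := by
      simp only [EQ, map_add, map_zsmul, pb_dv hQ, pb_deg hDEG hQ, (hDEG k _ hK).2, smul_eq_mul,
        zero_add]
    have h5 : 3 * w0 d m ≤ N0 d m := by
      rw [w0, N0, mul_assoc]
      exact Nat.mul_le_mul_left _ (Nat.mul_le_mul_left _ (Nat.sub_le _ _))
    obtain ⟨y₀, hy₀⟩ := apx (pb P i (EQ C)).support (fun w => P.φ i (a (P.up ⟨i, w⟩)))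
      fun w => -(D (P.up ⟨i, w⟩) - EQ C (P.up ⟨i, w⟩))
    simp only [neg_neg, Finsupp.mem_support_iff, pb_ap] at hy₀
    obtain ⟨y, hy, hy'⟩ := hJ g hg (pb P i D) (pb P i (EQ C)) (fun w => h0 _) (by
      rw [h3, h4]
      have h6 : (3 * w0 d m : ℤ) ≤ N0 d m := by exact_mod_cast h5
      have h7 : (1 : ℤ) ≤ finrank k⟮P.φ i C.s⟯ (P.K i) := by exact_mod_cast h2
      nlinarith) y₀ fun w hw => by
        have e1 := (hy₀ w hw).trans (exp_le_exp.2 (sub_le_self _ (h0 _)))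
        have e2 := ha _ ((EQ_cases hQ hH _).resolve_left hw)
        rw [P.up_val] at e2
        have := w.val.map_add_le e1 e2
        rwa [sub_add_cancel] at this
    refine ⟨y, hy, fun w hw => ?_⟩
    have := w.val.map_add_le (hy' w hw) (hy₀ w hw)
    rwa [sub_add_sub_cancel] at this
  choose y hy hy' using key
  obtain ⟨Y, hY⟩ := P.bij.surjective y
  have hYi : ∀ i, P.φ i Y = y i := fun i => congrFun hY i
  have fin : ∀ v, C.Bad v ∨ 1 < v.val C.t → v.val (Y - a v) ≤ exp (D v) * exp (-EQ C v) := by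
    intro v hv
    obtain ⟨⟨i, w⟩, rfl⟩ := P.up.surjective v
    rw [P.up_val, map_sub, hYi, ← exp_add, ← sub_eq_add_neg]
    exact hy' i w (EQ_pos hQ hH hv).ne'
  refine ⟨Y, fun v => ?_, fun v hv => ?_, fun v hv => ?_⟩
  · obtain ⟨⟨i, w⟩, rfl⟩ := P.up.surjective v
    rw [P.up_val, hYi]
    exact hy i w
  · rw [EQ_fin hQ hH hv.1]; exact fin v (Or.inl hv)
  · rw [EQ_inf hQ hH hv]; exact fin v (Or.inr hv)

end Pool.Agent.MP_cce4c9_lc.H12
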